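import Mathlib

/-!
# Base-r numeral system simplices are not always Ehrhart positive

We compute the Ehrhart polynomial of the base-14 simplex of dimension 5 and find that its linear
coefficient is `-268/15`.
-/

namespace Pool.Agent.Results.MP_ffae75_co.NotEhrhartPositive

open Finset Pointwise

/-- The base-`r` `d`-simplex `conv(e_1, ..., e_d, - sum (r-1) r^(k-1) e_k)`. -/
def baseSimplex (r d : ℕ) : Set (Fin d → ℝ) :=
  convexHull ℝ (Set.range (fun i : Fin d => (Pi.single i 1 : Fin d → ℝ)) ∪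
    {fun k : Fin d => -(((r : ℝ) - 1) * (r : ℝ) ^ (k : ℕ))})

/-- `IsEhrhart P p`: for every natural number `t`, the value `p(t)` is the number of integer
points of `t P`. -/
def IsEhrhart {d : ℕ} (P : Set (Fin d → ℝ)) (p : Polynomial ℚ) : Prop :=
  ∀ t : ℕ, (({x : Fin d → ℤ | (fun i => (x i : ℝ)) ∈ (t : ℝ) • P}.ncard : ℕ) : ℚ)
    = p.eval (t : ℚ)

/-! ### The combinatorial function -/

/-- carry recursion -/
def wc : ℕ → ℕ → ℕ → ℕ
  | 0, _, _ => 0
  | n + 1, c, b => (if c < b % 14 then 1 else 0) +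
      wc n (if c < b % 14 then b % 14 - 1 else b % 14) (b / 14)

lemma wc_le (n : ℕ) : ∀ c b, wc n c b ≤ n := by
  induction n with
  | zero => intro c b; simp [wc]
  | succ n ih =>
    intro c b
    have := ih (if c < b % 14 then b % 14 - 1 else b % 14) (b / 14)
    simp only [wc]
    split_ifs at this ⊢ <;> omega

lemma wc_eq (n : ℕ) : ∀ c b, c < 14 → b < 14 ^ n →
    wc n c b + ∑ i ∈ range n, (13 * b + c) / 14 ^ (i + 1) = b := by
  induction n with
  | zero => intro c b _ hb; simp [wc] at hb ⊢; omega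
  | succ n ih =>
    intro c b hc hb
    have hq : b / 14 < 14 ^ n := by
      rw [pow_succ] at hb
      exact Nat.div_lt_of_lt_mul (by linarith)
    set c' := (if c < b % 14 then b % 14 - 1 else b % 14) with hc'
    have hc'lt : c' < 14 := by
      have : b % 14 < 14 := Nat.mod_lt _ (by norm_num)
      rw [hc']; split_ifs <;> omega
    have key : (13 * b + c) / 14 = 13 * (b / 14) + c' := by
      rw [hc']; split_ifs <;> omega
    have h := ih c' (b / 14) hc'lt hq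
    rw [Finset.sum_range_succ']
    have e : ∀ i ∈ range n, (13 * b + c) / 14 ^ (i + 1 + 1) = (13 * (b / 14) + c') / 14 ^ (i + 1) := by
      intro i _
      rw [← key, Nat.div_div_eq_div_mul, ← pow_succ']
    rw [Finset.sum_congr rfl e]
    simp only [wc, zero_add, pow_one, key, ← hc']
    have : c' + (if c < b % 14 then 1 else 0) = b % 14 := by
      rw [hc']; split_ifs <;> omega
    omega

lemma sum_split (n : ℕ) (G : ℕ → ℚ) :
    ∑ b ∈ range (14 ^ (n + 1)), G b = ∑ a ∈ range 14, ∑ q ∈ range (14 ^ n), G (14 * q + a) := by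
  rw [← Finset.sum_product']
  refine Finset.sum_nbij' (fun b => (b % 14, b / 14)) (fun p => 14 * p.2 + p.1) ?_ ?_ ?_ ?_ ?_
  · intro b hb
    simp only [mem_range, mem_product, pow_succ] at hb ⊢
    exact ⟨Nat.mod_lt _ (by norm_num), Nat.div_lt_of_lt_mul (by linarith)⟩
  · rintro ⟨a, q⟩ h
    simp only [mem_range, mem_product, pow_succ] at h ⊢
    omega
  · intro b _
    simp only
    omega
  · rintro ⟨a, q⟩ h
    simp only [mem_range, mem_product] at h ⊢
    ext <;> simp <;> omega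
  · intro b _
    simp only
    congr 1
    omega

/-- sum of `F` over the values of `wc n c` -/
def HS (F : ℕ → ℚ) (n c : ℕ) : ℚ := ∑ b ∈ range (14 ^ n), F (wc n c b)

lemma HS_zero (F : ℕ → ℚ) (c : ℕ) : HS F 0 c = F 0 := by
  simp [HS, wc]

lemma HS_succ (F : ℕ → ℚ) (n c : ℕ) : HS F (n + 1) c =
    ∑ a ∈ range 14, if c < a then HS (fun k => F (k + 1)) n (a - 1) else HS F n a := by
  unfold HS
  rw [sum_split n (fun b => F (wc (n + 1) c b))]
  refine Finset.sum_congr rfl ?_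
  intro a ha
  have ha' : a < 14 := by simpa using ha
  by_cases h : c < a
  · rw [if_pos h]
    refine Finset.sum_congr rfl ?_
    intro q _
    have h1 : (14 * q + a) % 14 = a := by omega
    have h2 : (14 * q + a) / 14 = q := by omega
    simp only [wc, h1, h2, if_pos h]
    rw [add_comm]
  · rw [if_neg h]
    refine Finset.sum_congr rfl ?_
    intro q _
    have h1 : (14 * q + a) % 14 = a := by omega
    have h2 : (14 * q + a) / 14 = q := by omega
    simp only [wc, h1, h2, if_neg h]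
    rw [zero_add]

/-! ### Tables -/

/-- evaluation of a coefficient list against `F` -/
def ev : List ℕ → (ℕ → ℚ) → ℚ
  | [], _ => 0
  | a :: l, F => a * F 0 + ev l (fun k => F (k + 1))

/-- coefficientwise addition -/
def addL : List ℕ → List ℕ → List ℕ
  | [], l => l
  | a :: l, [] => a :: l
  | a :: l, b :: m => (a + b) :: addL l m

lemma ev_addL (l : List ℕ) : ∀ (m : List ℕ) (F : ℕ → ℚ), ev (addL l m) F = ev l F + ev m F := by
  induction l with
  | nil => intro m F; simp [addL, ev]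
  | cons a l ih =>
    intro m F
    cases m with
    | nil => simp [addL, ev]
    | cons b m =>
      simp only [addL, ev, ih]
      push_cast
      ring

/-- one step of the recursion -/
def step (T : List (List ℕ)) (c : ℕ) : List ℕ :=
  (List.range 14).foldr
    (fun a acc => addL (if c < a then 0 :: T.getD (a - 1) [] else T.getD a []) acc) []

lemma ev_step_aux (T : List (List ℕ)) (c : ℕ) (F : ℕ → ℚ) (L : List ℕ) :
    ev (L.foldr (fun a acc => addL (if c < a then 0 :: T.getD (a - 1) [] else T.getD a []) acc) []) F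
      = (L.map (fun a => if c < a then ev (T.getD (a - 1) []) (fun k => F (k + 1))
          else ev (T.getD a []) F)).sum := by
  induction L with
  | nil => simp [ev]
  | cons a L ih =>
    simp only [List.foldr_cons, ev_addL, ih, List.map_cons, List.sum_cons]
    congr 1
    split_ifs
    · simp [ev]
    · rfl

lemma HS_step (T : List (List ℕ)) (n : ℕ)
    (h : ∀ a < 14, ∀ F : ℕ → ℚ, HS F n a = ev (T.getD a []) F) (c : ℕ) (F : ℕ → ℚ) :
    HS F (n + 1) c = ev (step T c) F := by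
  rw [HS_succ, step, ev_step_aux]
  rw [← List.sum_toFinset _ (List.nodup_range)]
  have : (List.range 14).toFinset = range 14 := by
    ext; simp
  rw [this]
  refine Finset.sum_congr rfl ?_
  intro a ha
  have ha' : a < 14 := by simpa using ha
  split_ifs with hc
  · rw [h (a - 1) (by omega)]
  · rw [h a ha']

def T1 : List (List ℕ) := [[1, 13], [2, 12], [3, 11], [4, 10], [5, 9], [6, 8], [7, 7], [8, 6], [9, 5], [10, 4], [11, 3], [12, 2], [13, 1], [14]]
def T2 : List (List ℕ) := [[1, 104, 91], [3, 115, 78], [6, 124, 66], [10, 131, 55], [15, 136, 45], [21, 139, 36], [28, 140, 28], [36, 139, 21], [45, 136, 15], [55, 131, 10], [66, 124, 6], [78, 115, 3], [91, 104, 1], [105, 91]]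
def T3 : List (List ℕ) := [[1, 559, 1729, 455], [4, 673, 1703, 364], [10, 794, 1654, 286], [20, 919, 1585, 220], [35, 1045, 1499, 165], [56, 1169, 1399, 120], [84, 1288, 1288, 84], [120, 1399, 1169, 56], [165, 1499, 1045, 35], [220, 1585, 919, 20], [286, 1654, 794, 10], [364, 1703, 673, 4], [455, 1729, 559, 1], [560, 1729, 455]]
def T4 : List (List ℕ) := [[1, 2379, 17745, 16471, 1820], [5, 3051, 18889, 15106, 1365], [15, 3841, 19870, 13689, 1001], [35, 4750, 20661, 12255, 715], [70, 5775, 21241, 10835, 495], [126, 6909, 21595, 9456, 330], [210, 8141, 21714, 8141, 210], [330, 9456, 21595, 6909, 126], [495, 10835, 21241, 5775, 70], [715, 12255, 20661, 4750, 35], [1001, 13689, 19870, 3841, 15], [1365, 15106, 18889, 3051, 5], [1820, 16471, 17745, 2379, 1], [2380, 17745, 16471, 1820]]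

lemma HS1 (a : ℕ) (ha : a < 14) (F : ℕ → ℚ) : HS F 1 a = ev (T1.getD a []) F := by
  have e : ∀ c < 14, step (List.replicate 14 [1]) c = T1.getD c [] := by decide +kernel
  rw [← e a ha]
  refine HS_step _ 0 ?_ a F
  intro b hb F
  rw [HS_zero]
  have : (List.replicate 14 [1]).getD b [] = [1] := by
    interval_cases b <;> rfl
  rw [this]
  simp [ev]

lemma HS2 (a : ℕ) (ha : a < 14) (F : ℕ → ℚ) : HS F 2 a = ev (T2.getD a []) F := by
  have e : ∀ c < 14, step T1 c = T2.getD c [] := by decide +kernel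
  rw [← e a ha]
  exact HS_step _ 1 HS1 a F

lemma HS3 (a : ℕ) (ha : a < 14) (F : ℕ → ℚ) : HS F 3 a = ev (T3.getD a []) F := by
  have e : ∀ c < 14, step T2 c = T3.getD c [] := by decide +kernel
  rw [← e a ha]
  exact HS_step _ 2 HS2 a F

lemma HS4 (a : ℕ) (ha : a < 14) (F : ℕ → ℚ) : HS F 4 a = ev (T4.getD a []) F := by
  have e : ∀ c < 14, step T3 c = T4.getD c [] := by decide +kernel
  rw [← e a ha]
  exact HS_step _ 3 HS3 a F

lemma HS5 (F : ℕ → ℚ) : HS F 5 0 = 1 * F 0 + 8567 * F 1 + 130403 * F 2 + 278187 * F 3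
    + 114478 * F 4 + 6188 * F 5 := by
  have e : step T4 0 = [1, 8567, 130403, 278187, 114478, 6188] := by decide +kernel
  rw [HS_step _ 4 HS4 0 F, e]
  simp only [ev]
  push_cast
  ring

/-! ### The simplex as a polyhedron -/

lemma sum_pow_five : (∑ k : Fin 5, (13 * (14 : ℝ) ^ (k : ℕ))) = 14 ^ 5 - 1 := by
  rw [Fin.sum_univ_five]
  norm_num

lemma mem_imp (y : Fin 5 → ℝ) (hy : y ∈ baseSimplex 14 5) :
    0 ≤ 1 - ∑ i, y i ∧ ∀ k : Fin 5, 0 ≤ 14 ^ 5 * y k + 13 * 14 ^ (k : ℕ) * (1 - ∑ i, y i) := by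
  let C : Set (Fin 5 → ℝ) := {y | 0 ≤ 1 - ∑ i, y i ∧
    ∀ k : Fin 5, 0 ≤ 14 ^ 5 * y k + 13 * 14 ^ (k : ℕ) * (1 - ∑ i, y i)}
  have hC : Convex ℝ C := by
    intro u hu v hv a b ha hb hab
    have hs : 1 - ∑ i, (a • u + b • v) i = a * (1 - ∑ i, u i) + b * (1 - ∑ i, v i) := by
      simp only [Pi.add_apply, Pi.smul_apply, smul_eq_mul, Finset.sum_add_distrib,
        ← Finset.mul_sum]
      linear_combination -hab
    refine ⟨?_, ?_⟩
    · rw [hs]
      exact add_nonneg (mul_nonneg ha hu.1) (mul_nonneg hb hv.1)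
    · intro k
      rw [hs]
      have e : 14 ^ 5 * (a • u + b • v) k + 13 * 14 ^ (k : ℕ) *
          (a * (1 - ∑ i, u i) + b * (1 - ∑ i, v i)) =
          a * (14 ^ 5 * u k + 13 * 14 ^ (k : ℕ) * (1 - ∑ i, u i)) +
          b * (14 ^ 5 * v k + 13 * 14 ^ (k : ℕ) * (1 - ∑ i, v i)) := by
        simp only [Pi.add_apply, Pi.smul_apply, smul_eq_mul]
        ring
      rw [e]
      exact add_nonneg (mul_nonneg ha (hu.2 k)) (mul_nonneg hb (hv.2 k))
  have hsub : baseSimplex 14 5 ⊆ C := by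
    unfold baseSimplex
    refine convexHull_min ?_ hC
    rintro y (⟨i, rfl⟩ | hy)
    · have hs : ∑ j, (Pi.single i 1 : Fin 5 → ℝ) j = 1 := by
        simp
      refine ⟨?_, ?_⟩
      · simp only [hs]; norm_num
      · intro k
        simp only [hs, sub_self, mul_zero, add_zero]
        by_cases h : k = i
        · subst h; simp
        · simp [h]
    · rw [Set.mem_singleton_iff] at hy
      subst hy
      have hs : ∑ k : Fin 5, -(((14 : ℕ) : ℝ) - 1) * ((14 : ℕ) : ℝ) ^ (k : ℕ) = -(14 ^ 5 - 1) := by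
        rw [Fin.sum_univ_five]
        norm_num
      have hs' : ∑ k : Fin 5, -((((14 : ℕ) : ℝ) - 1) * ((14 : ℕ) : ℝ) ^ (k : ℕ)) = -(14 ^ 5 - 1) := by
        rw [← hs]; refine Finset.sum_congr rfl ?_; intro k _; ring
      refine ⟨?_, ?_⟩
      · simp only [hs']; norm_num
      · intro k
        simp only [hs']
        apply le_of_eq
        push_cast
        ring
  exact hsub hy

lemma mem_smul_iff (t : ℕ) (x : Fin 5 → ℝ) : x ∈ (t : ℝ) • baseSimplex 14 5 ↔
    (0 ≤ (t : ℝ) - ∑ i, x i ∧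
      ∀ k : Fin 5, 0 ≤ 14 ^ 5 * x k + 13 * 14 ^ (k : ℕ) * ((t : ℝ) - ∑ i, x i)) := by
  constructor
  · rintro ⟨y, hy, rfl⟩
    obtain ⟨h1, h2⟩ := mem_imp y hy
    have ht : (0 : ℝ) ≤ t := Nat.cast_nonneg t
    have hs : (t : ℝ) - ∑ i, ((t : ℝ) • y) i = t * (1 - ∑ i, y i) := by
      simp only [Pi.smul_apply, smul_eq_mul, ← Finset.mul_sum]
      ring
    refine ⟨?_, ?_⟩
    · show 0 ≤ (t : ℝ) - ∑ i, ((t : ℝ) • y) i
      rw [hs]; exact mul_nonneg ht h1
    · intro k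
      show 0 ≤ 14 ^ 5 * ((t : ℝ) • y) k + 13 * 14 ^ (k : ℕ) * ((t : ℝ) - ∑ i, ((t : ℝ) • y) i)
      rw [hs]
      have e : 14 ^ 5 * ((t : ℝ) • y) k + 13 * 14 ^ (k : ℕ) * (t * (1 - ∑ i, y i)) =
        t * (14 ^ 5 * y k + 13 * 14 ^ (k : ℕ) * (1 - ∑ i, y i)) := by
        simp only [Pi.smul_apply, smul_eq_mul]; ring
      rw [e]
      exact mul_nonneg ht (h2 k)
  · rintro ⟨h1, h2⟩
    set m : ℝ := ((t : ℝ) - ∑ i, x i) / 14 ^ 5 with hm
    have hmul : (14 : ℝ) ^ 5 * m = (t : ℝ) - ∑ i, x i := by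
      rw [hm]; field_simp
    have hm0 : 0 ≤ m := div_nonneg h1 (by norm_num)
    let l : Fin 5 → ℝ := fun k => x k + 13 * 14 ^ (k : ℕ) * m
    have hl : ∀ k, 0 ≤ l k := by
      intro k
      have h := h2 k
      rw [← hmul] at h
      have e : 14 ^ 5 * x k + 13 * 14 ^ (k : ℕ) * (14 ^ 5 * m) = 14 ^ 5 * l k := by
        simp only [l]; ring
      rw [e] at h
      exact nonneg_of_mul_nonneg_right h (by norm_num)
    have hsum : m + ∑ k, l k = t := by
      simp only [l, Finset.sum_add_distrib, ← Finset.sum_mul, sum_pow_five]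
      linear_combination hmul
    rcases Nat.eq_zero_or_pos t with ht | ht
    · subst ht
      have hm' : m = 0 := by
        have : 0 ≤ ∑ k, l k := Finset.sum_nonneg (fun k _ => hl k)
        push_cast at hsum
        linarith
      have hl' : ∀ k, l k = 0 := by
        have : ∑ k, l k = 0 := by push_cast at hsum; linarith
        intro k
        exact (Finset.sum_eq_zero_iff_of_nonneg (fun k _ => hl k)).1 this k (mem_univ k)
      have hx : x = 0 := by
        funext k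
        have := hl' k
        simp only [l, hm', mul_zero, add_zero] at this
        exact this
      rw [hx]
      have hne : (baseSimplex 14 5).Nonempty := by
        refine ⟨(Pi.single 0 1 : Fin 5 → ℝ), subset_convexHull ℝ _ (Or.inl ⟨0, rfl⟩)⟩
      obtain ⟨y, hy⟩ := hne
      exact ⟨y, hy, by simp⟩
    · have ht' : (0 : ℝ) < t := by exact_mod_cast ht
      refine ⟨(t : ℝ)⁻¹ • x, ?_, ?_⟩
      · let v : Option (Fin 5) → (Fin 5 → ℝ) := fun o => match o with
          | none => fun k : Fin 5 => -((((14 : ℕ) : ℝ) - 1) * ((14 : ℕ) : ℝ) ^ (k : ℕ))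
          | some i => Pi.single i 1
        let w : Option (Fin 5) → ℝ := fun o => match o with
          | none => (t : ℝ)⁻¹ * m
          | some i => (t : ℝ)⁻¹ * l i
        have hw : ∀ o ∈ (univ : Finset (Option (Fin 5))), 0 ≤ w o := by
          intro o _
          cases o with
          | none => exact mul_nonneg (inv_nonneg.2 ht'.le) hm0
          | some i => exact mul_nonneg (inv_nonneg.2 ht'.le) (hl i)
        have hw1 : ∑ o, w o = 1 := by
          rw [Fintype.sum_option]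
          simp only [w, ← Finset.mul_sum]
          rw [← mul_add, hsum]
          exact inv_mul_cancel₀ ht'.ne'
        have hv : ∀ o ∈ (univ : Finset (Option (Fin 5))), v o ∈ baseSimplex 14 5 := by
          intro o _
          apply subset_convexHull
          cases o with
          | none => right; rfl
          | some i => left; exact ⟨i, rfl⟩
        have := (convex_convexHull ℝ _).sum_mem hw hw1 hv
        have e : (t : ℝ)⁻¹ • x = ∑ o, w o • v o := by
          funext k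
          rw [Fintype.sum_option]
          simp only [w, v, Pi.add_apply, Pi.smul_apply, smul_eq_mul, Finset.sum_apply,
            Pi.single_apply, mul_ite, mul_one, mul_zero, Finset.sum_ite_eq, mem_univ, if_true, l]
          push_cast
          ring
        rw [e]
        exact this
      · simp only [smul_smul]
        rw [mul_inv_cancel₀ ht'.ne', one_smul]

lemma mem_int_iff (t : ℕ) (x : Fin 5 → ℤ) :
    (fun i => (x i : ℝ)) ∈ (t : ℝ) • baseSimplex 14 5 ↔
    (0 ≤ (t : ℤ) - ∑ i, x i ∧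
      ∀ k : Fin 5, 0 ≤ 14 ^ 5 * x k + 13 * 14 ^ (k : ℕ) * ((t : ℤ) - ∑ i, x i)) := by
  rw [mem_smul_iff]
  constructor
  · rintro ⟨h1, h2⟩
    refine ⟨by exact_mod_cast h1, fun k => ?_⟩
    have := h2 k
    exact_mod_cast this
  · rintro ⟨h1, h2⟩
    refine ⟨by exact_mod_cast h1, fun k => ?_⟩
    have := h2 k
    exact_mod_cast this

/-! ### Counting -/

lemma wc_lin (b : ℕ) (hb : b < 537824) :
    wc 5 0 b + (13 * b / 14 + 13 * b / 196 + 13 * b / 2744 + 13 * b / 38416 + 13 * b / 537824)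
      = b := by
  have h := wc_eq 5 0 b (by norm_num) (by norm_num; exact hb)
  simp only [Finset.sum_range_succ, Finset.sum_range_zero, add_zero, zero_add, pow_one] at h
  norm_num at h
  omega

/-- index set of the parametrisation of the lattice points -/
def idx (t : ℕ) : Finset (Σ _ : ℕ, (Fin 6 → ℕ)) :=
  (range (14 ^ 5)).sigma (fun b => if wc 5 0 b ≤ t then
    (univ : Finset (Fin 6)).piAntidiag (t - wc 5 0 b) else ∅)

lemma mem_idx (t : ℕ) (b : ℕ) (z : Fin 6 → ℕ) : (⟨b, z⟩ : Σ _ : ℕ, (Fin 6 → ℕ)) ∈ idx t ↔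
    b < 537824 ∧ wc 5 0 b + ∑ i, z i = t := by
  unfold idx
  rw [Finset.mem_sigma]
  simp only [mem_range]
  have e : (14 : ℕ) ^ 5 = 537824 := by norm_num
  rw [e]
  refine and_congr_right ?_
  intro _
  by_cases h : wc 5 0 b ≤ t
  · rw [if_pos h, mem_piAntidiag]
    constructor
    · rintro ⟨h1, _⟩
      have h1' : ∑ i, z i = t - wc 5 0 b := h1
      omega
    · intro h1
      refine ⟨?_, fun i _ => mem_univ i⟩
      show ∑ i, z i = t - wc 5 0 b
      omega
  · rw [if_neg h]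
    constructor
    · intro h1; simp at h1
    · intro h1; omega

lemma mem_idx' (t : ℕ) (p : Σ _ : ℕ, (Fin 6 → ℕ)) : p ∈ idx t ↔
    p.1 < 537824 ∧ wc 5 0 p.1 + ∑ i, p.2 i = t := by
  cases p with
  | mk b z => exact mem_idx t b z

attribute [irreducible] idx

/-- the parametrisation, with explicit total `B` -/
def psi (B : ℕ) (z : Fin 6 → ℕ) : Fin 5 → ℤ :=
  ![(z 0 : ℤ) - ((13 * B / 537824 : ℕ) : ℤ), (z 1 : ℤ) - ((13 * B / 38416 : ℕ) : ℤ),
    (z 2 : ℤ) - ((13 * B / 2744 : ℕ) : ℤ), (z 3 : ℤ) - ((13 * B / 196 : ℕ) : ℤ),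
    (z 4 : ℤ) - ((13 * B / 14 : ℕ) : ℤ)]

lemma psi0 (B : ℕ) (z : Fin 6 → ℕ) : psi B z 0 = (z 0 : ℤ) - ((13 * B / 537824 : ℕ) : ℤ) := rfl
lemma psi1 (B : ℕ) (z : Fin 6 → ℕ) : psi B z 1 = (z 1 : ℤ) - ((13 * B / 38416 : ℕ) : ℤ) := rfl
lemma psi2 (B : ℕ) (z : Fin 6 → ℕ) : psi B z 2 = (z 2 : ℤ) - ((13 * B / 2744 : ℕ) : ℤ) := rfl
lemma psi3 (B : ℕ) (z : Fin 6 → ℕ) : psi B z 3 = (z 3 : ℤ) - ((13 * B / 196 : ℕ) : ℤ) := rfl
lemma psi4 (B : ℕ) (z : Fin 6 → ℕ) : psi B z 4 = (z 4 : ℤ) - ((13 * B / 14 : ℕ) : ℤ) := rfl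

/-- the parametrisation -/
def phi (p : Σ _ : ℕ, (Fin 6 → ℕ)) : Fin 5 → ℤ := psi (p.1 + 537824 * p.2 5) p.2

lemma arith (b w z0 z1 z2 z3 z4 z5 t : ℕ)
    (h : w + (13 * b / 14 + 13 * b / 196 + 13 * b / 2744 + 13 * b / 38416 + 13 * b / 537824) = b)
    (hz : w + (z0 + z1 + z2 + z3 + z4 + z5) = t) :
    (t : ℤ) - (((z0 : ℤ) - ((13 * (b + 537824 * z5) / 537824 : ℕ) : ℤ)) +
      ((z1 : ℤ) - ((13 * (b + 537824 * z5) / 38416 : ℕ) : ℤ)) +
      ((z2 : ℤ) - ((13 * (b + 537824 * z5) / 2744 : ℕ) : ℤ)) +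
      ((z3 : ℤ) - ((13 * (b + 537824 * z5) / 196 : ℕ) : ℤ)) +
      ((z4 : ℤ) - ((13 * (b + 537824 * z5) / 14 : ℕ) : ℤ))) = ((b + 537824 * z5 : ℕ) : ℤ) := by
  have e0 : 13 * (b + 537824 * z5) / 537824 = 13 * b / 537824 + 13 * z5 := by omega
  have e1 : 13 * (b + 537824 * z5) / 38416 = 13 * b / 38416 + 182 * z5 := by omega
  have e2 : 13 * (b + 537824 * z5) / 2744 = 13 * b / 2744 + 2548 * z5 := by omega
  have e3 : 13 * (b + 537824 * z5) / 196 = 13 * b / 196 + 35672 * z5 := by omega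
  have e4 : 13 * (b + 537824 * z5) / 14 = 13 * b / 14 + 499408 * z5 := by omega
  rw [e0, e1, e2, e3, e4]
  clear e0 e1 e2 e3 e4
  generalize 13 * b / 537824 = g0 at *
  generalize 13 * b / 38416 = g1 at *
  generalize 13 * b / 2744 = g2 at *
  generalize 13 * b / 196 = g3 at *
  generalize 13 * b / 14 = g4 at *
  push_cast
  omega

lemma sum_phi (t b : ℕ) (z : Fin 6 → ℕ) (hb : b < 537824) (hz : wc 5 0 b + ∑ i, z i = t) :
    (t : ℤ) - ∑ i, phi ⟨b, z⟩ i = ((b + 537824 * z 5 : ℕ) : ℤ) := by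
  have h := wc_lin b hb
  rw [Fin.sum_univ_six] at hz
  rw [Fin.sum_univ_five]
  unfold phi
  rw [psi0, psi1, psi2, psi3, psi4]
  exact arith b _ _ _ _ _ _ _ t h hz

lemma ineq (B : ℕ) (z : Fin 6 → ℕ) (k : Fin 5) :
    0 ≤ 14 ^ 5 * psi B z k + 13 * 14 ^ (k : ℕ) * (B : ℤ) := by
  fin_cases k
  · show 0 ≤ 14 ^ 5 * psi B z 0 + 13 * 14 ^ 0 * (B : ℤ)
    rw [psi0]; push_cast; omega
  · show 0 ≤ 14 ^ 5 * psi B z 1 + 13 * 14 ^ 1 * (B : ℤ)
    rw [psi1]; push_cast; omega
  · show 0 ≤ 14 ^ 5 * psi B z 2 + 13 * 14 ^ 2 * (B : ℤ)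
    rw [psi2]; push_cast; omega
  · show 0 ≤ 14 ^ 5 * psi B z 3 + 13 * 14 ^ 3 * (B : ℤ)
    rw [psi3]; push_cast; omega
  · show 0 ≤ 14 ^ 5 * psi B z 4 + 13 * 14 ^ 4 * (B : ℤ)
    rw [psi4]; push_cast; omega

lemma phi_mem (t b : ℕ) (z : Fin 6 → ℕ) (hb : b < 537824) (hz : wc 5 0 b + ∑ i, z i = t) :
    0 ≤ (t : ℤ) - ∑ i, phi ⟨b, z⟩ i ∧ ∀ k : Fin 5,
      0 ≤ 14 ^ 5 * phi ⟨b, z⟩ k + 13 * 14 ^ (k : ℕ) * ((t : ℤ) - ∑ i, phi ⟨b, z⟩ i) := by
  rw [sum_phi t b z hb hz]
  exact ⟨Int.natCast_nonneg _, fun k => ineq _ z k⟩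

lemma surj_aux (x0 x1 x2 x3 x4 : ℤ) (B w t : ℕ)
    (hw : w + (13 * (B % 537824) / 14 + 13 * (B % 537824) / 196 + 13 * (B % 537824) / 2744
      + 13 * (B % 537824) / 38416 + 13 * (B % 537824) / 537824) = B % 537824)
    (hB : (t : ℤ) - (x0 + x1 + x2 + x3 + x4) = B)
    (h0 : 0 ≤ x0 + (13 * B / 537824 : ℕ)) (h1 : 0 ≤ x1 + (13 * B / 38416 : ℕ))
    (h2 : 0 ≤ x2 + (13 * B / 2744 : ℕ)) (h3 : 0 ≤ x3 + (13 * B / 196 : ℕ))
    (h4 : 0 ≤ x4 + (13 * B / 14 : ℕ)) :
    w + ((x0 + (13 * B / 537824 : ℕ)).toNat + (x1 + (13 * B / 38416 : ℕ)).toNat +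
      (x2 + (13 * B / 2744 : ℕ)).toNat + (x3 + (13 * B / 196 : ℕ)).toNat +
      (x4 + (13 * B / 14 : ℕ)).toNat + B / 537824) = t := by
  have e0 : 13 * B / 537824 = 13 * (B % 537824) / 537824 + 13 * (B / 537824) := by omega
  have e1 : 13 * B / 38416 = 13 * (B % 537824) / 38416 + 182 * (B / 537824) := by omega
  have e2 : 13 * B / 2744 = 13 * (B % 537824) / 2744 + 2548 * (B / 537824) := by omega
  have e3 : 13 * B / 196 = 13 * (B % 537824) / 196 + 35672 * (B / 537824) := by omega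
  have e4 : 13 * B / 14 = 13 * (B % 537824) / 14 + 499408 * (B / 537824) := by omega
  generalize 13 * B / 537824 = f0 at *
  generalize 13 * B / 38416 = f1 at *
  generalize 13 * B / 2744 = f2 at *
  generalize 13 * B / 196 = f3 at *
  generalize 13 * B / 14 = f4 at *
  generalize 13 * (B % 537824) / 537824 = g0 at *
  generalize 13 * (B % 537824) / 38416 = g1 at *
  generalize 13 * (B % 537824) / 2744 = g2 at *
  generalize 13 * (B % 537824) / 196 = g3 at *
  generalize 13 * (B % 537824) / 14 = g4 at *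
  omega

lemma nonneg_all (x : Fin 5 → ℤ) (B : ℕ)
    (h2 : ∀ k : Fin 5, 0 ≤ 14 ^ 5 * x k + 13 * 14 ^ (k : ℕ) * (B : ℤ)) :
    0 ≤ x 0 + (13 * B / 537824 : ℕ) ∧ 0 ≤ x 1 + (13 * B / 38416 : ℕ) ∧
    0 ≤ x 2 + (13 * B / 2744 : ℕ) ∧ 0 ≤ x 3 + (13 * B / 196 : ℕ) ∧
    0 ≤ x 4 + (13 * B / 14 : ℕ) := by
  have h20 : 0 ≤ 14 ^ 5 * x 0 + 13 * 14 ^ 0 * (B : ℤ) := h2 0
  have h21 : 0 ≤ 14 ^ 5 * x 1 + 13 * 14 ^ 1 * (B : ℤ) := h2 1
  have h22 : 0 ≤ 14 ^ 5 * x 2 + 13 * 14 ^ 2 * (B : ℤ) := h2 2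
  have h23 : 0 ≤ 14 ^ 5 * x 3 + 13 * 14 ^ 3 * (B : ℤ) := h2 3
  have h24 : 0 ≤ 14 ^ 5 * x 4 + 13 * 14 ^ 4 * (B : ℤ) := h2 4
  norm_num at h20 h21 h22 h23 h24
  refine ⟨?_, ?_, ?_, ?_, ?_⟩ <;> push_cast <;> omega

/-- the preimage -/
def pre (x : Fin 5 → ℤ) (B : ℕ) : Fin 6 → ℕ :=
  ![(x 0 + (13 * B / 537824 : ℕ)).toNat, (x 1 + (13 * B / 38416 : ℕ)).toNat,
    (x 2 + (13 * B / 2744 : ℕ)).toNat, (x 3 + (13 * B / 196 : ℕ)).toNat,
    (x 4 + (13 * B / 14 : ℕ)).toNat, B / 537824]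

lemma psi_pre (x : Fin 5 → ℤ) (B : ℕ)
    (h : 0 ≤ x 0 + (13 * B / 537824 : ℕ) ∧ 0 ≤ x 1 + (13 * B / 38416 : ℕ) ∧
    0 ≤ x 2 + (13 * B / 2744 : ℕ) ∧ 0 ≤ x 3 + (13 * B / 196 : ℕ) ∧
    0 ≤ x 4 + (13 * B / 14 : ℕ)) : psi B (pre x B) = x := by
  obtain ⟨q0, q1, q2, q3, q4⟩ := h
  funext k
  fin_cases k
  · exact (by rw [Int.toNat_of_nonneg q0]; ring :
      ((x 0 + (13 * B / 537824 : ℕ)).toNat : ℤ) - ((13 * B / 537824 : ℕ) : ℤ) = x 0)
  · exact (by rw [Int.toNat_of_nonneg q1]; ring :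
      ((x 1 + (13 * B / 38416 : ℕ)).toNat : ℤ) - ((13 * B / 38416 : ℕ) : ℤ) = x 1)
  · exact (by rw [Int.toNat_of_nonneg q2]; ring :
      ((x 2 + (13 * B / 2744 : ℕ)).toNat : ℤ) - ((13 * B / 2744 : ℕ) : ℤ) = x 2)
  · exact (by rw [Int.toNat_of_nonneg q3]; ring :
      ((x 3 + (13 * B / 196 : ℕ)).toNat : ℤ) - ((13 * B / 196 : ℕ) : ℤ) = x 3)
  · exact (by rw [Int.toNat_of_nonneg q4]; ring :
      ((x 4 + (13 * B / 14 : ℕ)).toNat : ℤ) - ((13 * B / 14 : ℕ) : ℤ) = x 4)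

lemma surj_lemma (t : ℕ) (x : Fin 5 → ℤ) (h1 : 0 ≤ (t : ℤ) - ∑ i, x i)
    (h2 : ∀ k : Fin 5, 0 ≤ 14 ^ 5 * x k + 13 * 14 ^ (k : ℕ) * ((t : ℤ) - ∑ i, x i)) :
    ∃ p ∈ idx t, phi p = x := by
  obtain ⟨B, hB⟩ := Int.eq_ofNat_of_zero_le h1
  rw [hB] at h2
  have hq := nonneg_all x B h2
  rw [Fin.sum_univ_five] at hB
  have hlt : B % 537824 < 537824 := Nat.mod_lt _ (by norm_num)
  have hs := surj_aux _ _ _ _ _ B _ t (wc_lin _ hlt) hB hq.1 hq.2.1 hq.2.2.1 hq.2.2.2.1
    hq.2.2.2.2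
  refine ⟨⟨B % 537824, pre x B⟩, ?_, ?_⟩
  · rw [mem_idx]
    refine ⟨hlt, ?_⟩
    rw [Fin.sum_univ_six]
    exact hs
  · have hBB : B % 537824 + 537824 * (B / 537824) = B := Nat.mod_add_div _ _
    unfold phi
    have e5 : pre x B 5 = B / 537824 := rfl
    simp only [e5, hBB]
    exact psi_pre x B hq

lemma phi_inj_aux (t b b' : ℕ) (z z' : Fin 6 → ℕ) (hp : b < 537824 ∧ wc 5 0 b + ∑ i, z i = t)
    (hp' : b' < 537824 ∧ wc 5 0 b' + ∑ i, z' i = t)
    (he : phi ⟨b, z⟩ = phi ⟨b', z'⟩) : b = b' ∧ z = z' := by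
  have s1 := sum_phi t b z hp.1 hp.2
  have s2 := sum_phi t b' z' hp'.1 hp'.2
  rw [he, s2] at s1
  have s3 : b' + 537824 * z' 5 = b + 537824 * z 5 := by exact_mod_cast s1
  have hb : b = b' := by
    have r1 := hp.1
    have r2 := hp'.1
    omega
  refine ⟨hb, ?_⟩
  subst hb
  have h5 : z 5 = z' 5 := by omega
  have hz : z = z' := by
    unfold phi at he
    simp only at he
    rw [h5] at he
    have a0 := congrFun he 0
    have a1 := congrFun he 1
    have a2 := congrFun he 2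
    have a3 := congrFun he 3
    have a4 := congrFun he 4
    rw [psi0, psi0] at a0
    rw [psi1, psi1] at a1
    rw [psi2, psi2] at a2
    rw [psi3, psi3] at a3
    rw [psi4, psi4] at a4
    funext k
    fin_cases k
    · show z 0 = z' 0
      have : (z 0 : ℤ) = z' 0 := by linarith
      exact_mod_cast this
    · show z 1 = z' 1
      have : (z 1 : ℤ) = z' 1 := by linarith
      exact_mod_cast this
    · show z 2 = z' 2
      have : (z 2 : ℤ) = z' 2 := by linarith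
      exact_mod_cast this
    · show z 3 = z' 3
      have : (z 3 : ℤ) = z' 3 := by linarith
      exact_mod_cast this
    · show z 4 = z' 4
      have : (z 4 : ℤ) = z' 4 := by linarith
      exact_mod_cast this
    · exact h5
  exact hz

lemma phi_inj (t : ℕ) (p : Σ _ : ℕ, (Fin 6 → ℕ)) (hp : p ∈ idx t) (p' : Σ _ : ℕ, (Fin 6 → ℕ))
    (hp' : p' ∈ idx t) (he : phi p = phi p') : p = p' := by
  have h := (mem_idx' t p).1 hp
  have h' := (mem_idx' t p').1 hp'
  obtain ⟨e1, e2⟩ := phi_inj_aux t p.1 p'.1 p.2 p'.2 h h' he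
  exact Sigma.ext e1 (heq_of_eq e2)

lemma ncard_param {α β : Type*} (S : Set α) (I : Finset β) (f : β → α)
    (h1 : ∀ x ∈ S, ∃ p ∈ I, f p = x) (h2 : ∀ p ∈ I, f p ∈ S)
    (h3 : ∀ p ∈ I, ∀ p' ∈ I, f p = f p' → p = p') : S.ncard = I.card := by
  have himg : S = f '' (I : Set β) := by
    ext x
    constructor
    · intro hx
      obtain ⟨p, hp, he⟩ := h1 x hx
      exact ⟨p, hp, he⟩
    · rintro ⟨p, hp, rfl⟩
      exact h2 p hp
  rw [himg, Set.InjOn.ncard_image, Set.ncard_coe_finset]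
  intro p hp p' hp' he
  exact h3 p hp p' hp' he

lemma phi_mem' (t : ℕ) (p : Σ _ : ℕ, (Fin 6 → ℕ)) (hp : p ∈ idx t) :
    0 ≤ (t : ℤ) - ∑ i, phi p i ∧ ∀ k : Fin 5,
      0 ≤ 14 ^ 5 * phi p k + 13 * 14 ^ (k : ℕ) * ((t : ℤ) - ∑ i, phi p i) := by
  have h := (mem_idx' t p).1 hp
  exact phi_mem t p.1 p.2 h.1 h.2

lemma count_eq_card (t : ℕ) :
    {x : Fin 5 → ℤ | (fun i => (x i : ℝ)) ∈ (t : ℝ) • baseSimplex 14 5}.ncard = (idx t).card := by
  refine ncard_param _ (idx t) phi ?_ ?_ (phi_inj t)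
  · intro x hx
    rw [Set.mem_ofPred_eq, mem_int_iff] at hx
    exact surj_lemma t x hx.1 hx.2
  · intro p hp
    rw [Set.mem_ofPred_eq, mem_int_iff]
    exact phi_mem' t p hp

lemma card_piAntidiag_six (n : ℕ) :
    ((univ : Finset (Fin 6)).piAntidiag n).card = (n + 5).choose 5 := by
  have h : ((univ : Finset (Fin 6)).piAntidiag n).card =
      ((univ : Finset (Fin 6)).finsuppAntidiag n).card := by
    refine Finset.card_bij' (fun f _ => Finsupp.equivFunOnFinite.symm f) (fun f _ => (f : Fin 6 → ℕ))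
      ?_ ?_ ?_ ?_
    · intro f hf
      rw [mem_piAntidiag] at hf
      rw [mem_finsuppAntidiag]
      refine ⟨?_, fun i _ => mem_univ i⟩
      exact hf.1
    · intro f hf
      rw [mem_finsuppAntidiag] at hf
      rw [mem_piAntidiag]
      exact ⟨hf.1, fun i _ => mem_univ i⟩
    · intro f _; rfl
    · intro f _; ext i; rfl
  rw [h, Finset.card_finsuppAntidiag_nat_eq_choose]
  have e : #(univ : Finset (Fin 6)) + n - 1 = n + 5 := by
    rw [Finset.card_univ, Fintype.card_fin]; omega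
  rw [e, ← Nat.choose_symm_of_eq_add (show n + 5 = n + 5 from rfl)]

lemma choose_five (s : ℕ) : (((s + 5).choose 5 : ℕ) : ℚ) =
    ((s : ℚ) + 1) * (s + 2) * (s + 3) * (s + 4) * (s + 5) / 120 := by
  have h := Nat.ascFactorial_eq_factorial_mul_choose s 5
  have h2 : ((Nat.ascFactorial (s + 1) 5 : ℕ) : ℚ) = ((s : ℚ) + 1) * (s + 2) * (s + 3) * (s + 4) * (s + 5) := by
    simp only [Nat.ascFactorial]
    push_cast
    ring
  rw [h] at h2
  push_cast at h2
  have h3 : ((Nat.factorial 5 : ℕ) : ℚ) = 120 := by norm_num [Nat.factorial]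
  rw [h3] at h2
  rw [← h2]
  ring

/-- the polynomial function `C(t - k + 5, 5)` -/
def PF (t : ℕ) (k : ℕ) : ℚ :=
  ((t : ℚ) - k + 1) * (t - k + 2) * (t - k + 3) * (t - k + 4) * (t - k + 5) / 120

lemma fiber_card (t b : ℕ) :
    (((if wc 5 0 b ≤ t then (univ : Finset (Fin 6)).piAntidiag (t - wc 5 0 b) else ∅).card : ℕ) : ℚ)
      = PF t (wc 5 0 b) := by
  have hle := wc_le 5 0 b
  by_cases h : wc 5 0 b ≤ t
  · rw [if_pos h, card_piAntidiag_six, choose_five]
    unfold PF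
    rw [Nat.cast_sub h]
  · rw [if_neg h]
    simp only [card_empty, Nat.cast_zero]
    unfold PF
    generalize wc 5 0 b = w at *
    push Not at h
    interval_cases w <;> interval_cases t <;> norm_num

lemma count_eq (t : ℕ) :
    (({x : Fin 5 → ℤ | (fun i => (x i : ℝ)) ∈ (t : ℝ) • baseSimplex 14 5}.ncard : ℕ) : ℚ) =
    1 * PF t 0 + 8567 * PF t 1 + 130403 * PF t 2 + 278187 * PF t 3 + 114478 * PF t 4
      + 6188 * PF t 5 := by
  rw [count_eq_card, ← HS5 (PF t)]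
  unfold idx HS
  rw [Finset.card_sigma]
  push_cast
  refine Finset.sum_congr rfl ?_
  intro b _
  exact fiber_card t b

/-- The Ehrhart polynomial. -/
noncomputable def ehr : Polynomial ℚ :=
  Polynomial.C 1 + Polynomial.C (-268/15) * Polynomial.X + Polynomial.C (3955/12) * Polynomial.X ^ 2
    + Polynomial.C (5833/2) * Polynomial.X ^ 3 + Polynomial.C (10343/12) * Polynomial.X ^ 4
    + Polynomial.C (67228/15) * Polynomial.X ^ 5

lemma isEhrhart_ehr : IsEhrhart (baseSimplex 14 5) ehr := by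
  intro t
  rw [count_eq]
  unfold ehr PF
  simp only [Polynomial.eval_add, Polynomial.eval_mul, Polynomial.eval_C, Polynomial.eval_X,
    Polynomial.eval_pow]
  push_cast
  ring

lemma coeff_one : ehr.coeff 1 = -268/15 := by
  unfold ehr
  simp [Polynomial.coeff_one, Polynomial.coeff_C]

lemma unique_ehr {d : ℕ} (P : Set (Fin d → ℝ)) (p q : Polynomial ℚ) (hp : IsEhrhart P p)
    (hq : IsEhrhart P q) : q = p := by
  apply Polynomial.eq_of_infinite_eval_eq
  apply Set.infinite_of_injective_forall_mem (f := fun t : ℕ => (t : ℚ))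
  · exact Nat.cast_injective
  · intro t
    rw [Set.mem_ofPred_eq, ← hp t, ← hq t]

/-- The base-14 simplex of dimension 5 has exactly one Ehrhart polynomial; its coefficient of `t`
is `-268/15`. Consequently it is false that all base-`r` simplices are Ehrhart positive. -/
theorem result :
    (∃ p : Polynomial ℚ, IsEhrhart (baseSimplex 14 5) p ∧
      (∀ q : Polynomial ℚ, IsEhrhart (baseSimplex 14 5) q → q = p) ∧ p.coeff 1 = -268 / 15) ∧
    ¬ (∀ r d : ℕ, 2 ≤ r → 1 ≤ d → ∀ p : Polynomial ℚ, IsEhrhart (baseSimplex r d) p →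
      ∀ i ≤ d, 0 < p.coeff i) := by
  refine ⟨⟨ehr, isEhrhart_ehr, fun q hq => unique_ehr _ _ _ isEhrhart_ehr hq, coeff_one⟩, ?_⟩
  intro h
  have h1 := h 14 5 (by norm_num) (by norm_num) ehr isEhrhart_ehr 1 (by norm_num)
  rw [coeff_one] at h1
  norm_num at h1

end Pool.Agent.Results.MP_ffae75_co.NotEhrhartPositive
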